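import Pool.Agent.Helper97.QC.Final

set_option autoImplicit false

open MeasureTheory ProbabilityTheory Filter Finset

namespace Pool.Agent.Results.MP_f3a553_pr.QuasiCriticalCLT

/-- the position `S_n` of the simple random walk on `ℤ²` whose steps are `σ 0, σ 1, …`
(a step `(i, b)` is `+e_i` if `b` is true and `-e_i` otherwise) -/
def S {N : ℕ} (σ : Fin N → Fin 2 × Bool) (n : ℕ) : Fin 2 → ℤ :=
  ∑ k ∈ univ.filter (fun k : Fin N => k.val < n),
    (Pi.single (σ k).1 (if (σ k).2 then (1 : ℤ) else -1) : Fin 2 → ℤ)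

/-- `Λ(β) = log E[exp(β ω)]` for the law `μ` of the environment -/
noncomputable def Lam (μ : Measure ℝ) (β : ℝ) : ℝ := Real.log (∫ x, Real.exp (β * x) ∂μ)

/-- the overlap `R_N = ∑_{n ≤ N} P(S¹_n = S²_n)` of two independent walks -/
noncomputable def RN (N : ℕ) : ℝ :=
  ∑ n ∈ Icc 1 N, ((4 : ℝ) ^ n)⁻¹ * ∑ σ : Fin n → Fin 2 × Bool, ((4 : ℝ) ^ n)⁻¹ *
    ∑ σ' : Fin n → Fin 2 × Bool, if S σ n = S σ' n then 1 else 0

/-- the partition function `W_N(β)` in the environment `om` (for one sample point) -/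
noncomputable def W (μ : Measure ℝ) (om : ℕ → (Fin 2 → ℤ) → ℝ) (β : ℝ) (N : ℕ) : ℝ :=
  ((4 : ℝ) ^ N)⁻¹ * ∑ σ : Fin N → Fin 2 × Bool,
    Real.exp (∑ n ∈ Icc 1 N, (β * om n (S σ n) - Lam μ β))

/-- `λ_N = √(log (log N / ϑ_N))` -/
noncomputable def lam (ϑ : ℕ → ℝ) (N : ℕ) : ℝ := √(Real.log (Real.log N / ϑ N))

theorem RN_eq (N : ℕ) : RN N = Pool.Agent.Helper97.QC.R N := by
  unfold RN Pool.Agent.Helper97.QC.R Pool.Agent.Helper97.QC.Qs Pool.Agent.Helper97.QC.q
  apply Finset.sum_congr rfl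
  intro n _
  have h := Pool.Agent.Helper97.CP.A_A_diff n Pool.Agent.Helper97.QC.i0 0 0
  rw [sub_zero] at h
  rw [← h]
  unfold Pool.Agent.Helper97.CP.A Pool.Agent.Helper97.CP.ES
  congr 1
  apply Finset.sum_congr rfl
  intro σ _
  congr 1
  apply Finset.sum_congr rfl
  intro σ' _
  show (if S σ n = S σ' n then (1 : ℝ) else 0) =
    if (0 + Pool.Agent.Helper97.CP.pos σ n) - (0 + Pool.Agent.Helper97.CP.pos σ' n) = 0 then 1 else 0
  rw [zero_add, zero_add]
  simp only [sub_eq_zero]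
  rfl

theorem W_eq (μ : Measure ℝ) {Ω : Type*} (om : ℕ → (Fin 2 → ℤ) → Ω → ℝ) (β : ℝ) (N : ℕ) (w : Ω) :
    Pool.Agent.Helper97.QC.Dw (fun n x w => Real.exp (β * om n x w - Real.log (∫ x, Real.exp (β * x) ∂μ))) N w =
      W μ (fun n x => om n x w) β N := by
  unfold Pool.Agent.Helper97.QC.Dw
  rw [Pool.Agent.Helper17.QC.Wt_eq]
  unfold W
  congr 1
  apply Finset.sum_congr rfl
  intro σ _
  rw [Real.exp_sum]
  rfl

/-- Quasi-critical two-dimensional directed polymers: `(log W_N + λ_N²/2) / λ_N → N(0,1)`. -/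
theorem result (μ : Measure ℝ) [IsProbabilityMeasure μ]
    (hmean : ∫ x, x ∂μ = 0) (hvar : ∫ x, x ^ 2 ∂μ = 1)
    (hexp : ∀ b : ℝ, 0 ≤ b → Integrable (fun x => Real.exp (b * x)) μ)
    {Ω : Type*} [MeasurableSpace Ω] (P : Measure Ω) [IsProbabilityMeasure P]
    (ω : ℕ → (Fin 2 → ℤ) → Ω → ℝ) (hmeas : ∀ n x, Measurable (ω n x))
    (hindep : iIndepFun (fun p : ℕ × (Fin 2 → ℤ) => ω p.1 p.2) P)
    (hlaw : ∀ n x, P.map (ω n x) = μ)
    (β ϑ : ℕ → ℝ) (hβ : ∀ N, 0 ≤ β N)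
    (hϑ : Tendsto ϑ atTop atTop) (hϑ' : Tendsto (fun N : ℕ => ϑ N / Real.log N) atTop (nhds 0))
    (hqc : ∀ᶠ N : ℕ in atTop, Real.exp (Lam μ (2 * β N) - 2 * Lam μ (β N)) - 1 =
      1 / RN N * (1 - ϑ N / Real.log N)) :
    TendstoInDistribution
      (fun (N : ℕ) w => 1 / lam ϑ N * (Real.log (W μ (fun n x => ω n x w) (β N) N) - (-(lam ϑ N ^ 2 / 2))))
      atTop (id : ℝ → ℝ) (fun _ => P) (gaussianReal 0 1) := by
  have hm : ∀ N : ℕ, Measurable (fun w => 1 / lam ϑ N *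
      (Real.log (W μ (fun n x => ω n x w) (β N) N) - (-(lam ϑ N ^ 2 / 2)))) := by
    intro N
    apply Measurable.const_mul
    apply Measurable.sub_const
    apply Measurable.log
    unfold W
    apply Measurable.const_mul
    apply Finset.measurable_sum
    intro σ _
    apply Measurable.exp
    apply Finset.measurable_sum
    intro n _
    exact ((hmeas _ _).const_mul _).sub_const _
  refine ⟨fun N => (hm N).aemeasurable, measurable_id.aemeasurable, ?_⟩
  refine ProbabilityMeasure.tendsto_iff_tendsto_charFun.2 fun t => ?_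
  have key := Pool.Agent.Helper97.QC.final_char (P := P) μ hmean hvar hexp ω hmeas hindep hlaw β ϑ hβ hϑ hϑ'
    (by
      filter_upwards [hqc] with N hN
      rw [RN_eq] at hN
      exact hN) t
  simp only [W_eq] at key
  have e2 : charFun ((gaussianReal 0 1).map (id : ℝ → ℝ)) t = Complex.exp (-(t : ℂ) ^ 2 / 2) := by
    rw [Measure.map_id, charFun_gaussianReal]
    congr 1
    push_cast
    ring
  have e1 : ∀ N : ℕ, charFun (P.map (fun w => 1 / lam ϑ N *
      (Real.log (W μ (fun n x => ω n x w) (β N) N) - (-(lam ϑ N ^ 2 / 2))))) t =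
      ∫ w, Complex.exp (Complex.I * t *
      (((Real.log (W μ (fun n x => ω n x w) (β N) N) +
        √(Real.log (Real.log N / ϑ N)) ^ 2 / 2) / √(Real.log (Real.log N / ϑ N)) : ℝ) : ℂ)) ∂P := by
    intro N
    rw [charFun_apply_real, integral_map (hm N).aemeasurable (by fun_prop)]
    congr 1
    funext w
    congr 1
    unfold lam
    push_cast
    ring
  show Tendsto (fun N : ℕ => charFun (P.map (fun w => 1 / lam ϑ N *
      (Real.log (W μ (fun n x => ω n x w) (β N) N) - (-(lam ϑ N ^ 2 / 2))))) t) atTop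
      (nhds (charFun ((gaussianReal 0 1).map (id : ℝ → ℝ)) t))
  rw [e2]
  simp only [e1]
  exact key

end Pool.Agent.Results.MP_f3a553_pr.QuasiCriticalCLT
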